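import Pool.Agent.W397.NV.Jen1

/-!
# Jensen's formula and the Cayley transform
-/

set_option autoImplicit false

open MeasureTheory Filter Topology Set Metric

namespace Pool.Agent.W397.NV

/-- Jensen's formula, with a lower bound on an arc. -/
theorem jens_lower {h : ℂ → ℂ} {r : ℝ} (hr : 0 < r) (hh : AnalyticOnNhd ℂ h (closedBall 0 |r|))
    (h0 : h 0 ≠ 0) {A α C0 : ℝ} (hα : 0 < α) (hα1 : α ≤ 1) (hA : 0 ≤ A)
    (harc : ∀ θ : ℝ, |θ - Real.pi| ≤ α → Real.exp A ≤ ‖h (circleMap 0 r θ)‖) (hC0 : 0 ≤ C0)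
    (hneg : ∫⁻ θ in Ioc 0 (2 * Real.pi), lm ‖h (circleMap 0 r θ)‖ ≤ ENNReal.ofReal C0) :
    (2 * Real.pi)⁻¹ * (2 * α * A - C0) - Real.log ‖h 0‖ ≤
      ∑ᶠ u, (MeromorphicOn.divisor h (closedBall 0 |r|) u : ℝ) * Real.log (r * ‖0 - u‖⁻¹) := by
  have hJ := AnalyticOnNhd.circleAverage_log_norm hr.ne' hh h0
  have hci : CircleIntegrable (Real.log ‖h ·‖) 0 r :=
    MeromorphicOn.circleIntegrable_log_norm
      (hh.meromorphicOn.mono_set sphere_subset_closedBall)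
  set φ : ℝ → ℝ := fun θ => Real.log ‖h (circleMap 0 r θ)‖ with hφ
  have hint : IntegrableOn φ (Ioc 0 (2 * Real.pi)) := by
    have : IntervalIntegrable φ volume 0 (2 * Real.pi) := hci
    rwa [intervalIntegrable_iff_integrableOn_Ioc_of_le (by positivity)] at this
  have hpi := Real.pi_gt_three
  have hkey : 2 * α * A - C0 ≤ ∫ θ in (0)..(2 * Real.pi), φ θ := by
    rw [intervalIntegral.integral_of_le (by positivity),
      integral_eq_lintegral_pos_part_sub_lintegral_neg_part hint]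
    have h1 : (∫⁻ θ in Ioc 0 (2 * Real.pi), ENNReal.ofReal (-φ θ)).toReal ≤ C0 := by
      refine ENNReal.toReal_le_of_le_ofReal hC0 ?_
      exact hneg
    have h2 : 2 * α * A ≤ (∫⁻ θ in Ioc 0 (2 * Real.pi), ENNReal.ofReal (φ θ)).toReal := by
      have hfin : ∫⁻ θ in Ioc 0 (2 * Real.pi), ENNReal.ofReal (φ θ) ≠ ⊤ :=
        hint.lintegral_lt_top.ne
      rw [← ENNReal.ofReal_le_iff_le_toReal hfin]
      have hsub : Icc (Real.pi - α) (Real.pi + α) ⊆ Ioc 0 (2 * Real.pi) := by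
        intro θ hθ
        rw [mem_Icc] at hθ
        rw [mem_Ioc]
        constructor <;> linarith
      calc ENNReal.ofReal (2 * α * A)
          = ∫⁻ _ in Icc (Real.pi - α) (Real.pi + α), ENNReal.ofReal A := by
            rw [setLIntegral_const, Real.volume_Icc, ← ENNReal.ofReal_mul hA]
            congr 1
            ring
        _ ≤ ∫⁻ θ in Icc (Real.pi - α) (Real.pi + α), ENNReal.ofReal (φ θ) := by
            refine setLIntegral_mono' measurableSet_Icc fun θ hθ => ?_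
            apply ENNReal.ofReal_le_ofReal
            have h3 : |θ - Real.pi| ≤ α := by
              rw [mem_Icc] at hθ
              rw [abs_le]
              constructor <;> linarith
            have h4 := harc θ h3
            rw [hφ]
            simp only
            rw [← Real.log_exp A]
            exact Real.log_le_log (Real.exp_pos _) h4
        _ ≤ ∫⁻ θ in Ioc 0 (2 * Real.pi), ENNReal.ofReal (φ θ) :=
            lintegral_mono_set hsub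
    linarith
  have hJ' : (2 * Real.pi)⁻¹ * ∫ θ in (0)..(2 * Real.pi), φ θ =
      ∑ᶠ u, (MeromorphicOn.divisor h (closedBall 0 |r|) u : ℝ) * Real.log (r * ‖0 - u‖⁻¹) +
        Real.log ‖h 0‖ := by
    rw [← hJ]
    rfl
  have h3 : (2 * Real.pi)⁻¹ * (2 * α * A - C0) ≤ (2 * Real.pi)⁻¹ * ∫ θ in (0)..(2 * Real.pi), φ θ :=
    mul_le_mul_of_nonneg_left hkey (by positivity)
  linarith

/-- The Cayley transform of the disc onto the half plane to the right of `σ`. -/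
noncomputable def sm (σ : ℝ) (z : ℂ) : ℂ := σ + (1 + z) / (1 - z)

theorem one_sub_ne {z : ℂ} (hz : ‖z‖ < 1) : 1 - z ≠ 0 := by
  intro h
  have : z = 1 := by linear_combination -h
  rw [this, norm_one] at hz
  exact lt_irrefl _ hz

theorem cay_re {z : ℂ} : ((1 + z) / (1 - z)).re = (1 - ‖z‖ ^ 2) / ‖1 - z‖ ^ 2 := by
  rw [Complex.div_re, ← Complex.normSq_eq_norm_sq, ← Complex.normSq_eq_norm_sq,
    Complex.normSq_apply z]
  simp only [Complex.add_re, Complex.one_re, Complex.sub_re, Complex.add_im, Complex.one_im,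
    Complex.sub_im]
  ring

theorem cay_im {z : ℂ} : ((1 + z) / (1 - z)).im = 2 * z.im / ‖1 - z‖ ^ 2 := by
  rw [Complex.div_im, ← Complex.normSq_eq_norm_sq]
  simp only [Complex.add_re, Complex.one_re, Complex.sub_re, Complex.add_im, Complex.one_im,
    Complex.sub_im]
  ring

theorem sm_re {σ : ℝ} {z : ℂ} : (sm σ z).re = σ + (1 - ‖z‖ ^ 2) / ‖1 - z‖ ^ 2 := by
  unfold sm
  rw [Complex.add_re, Complex.ofReal_re, cay_re]

theorem sm_im {σ : ℝ} {z : ℂ} : (sm σ z).im = 2 * z.im / ‖1 - z‖ ^ 2 := by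
  unfold sm
  rw [Complex.add_im, Complex.ofReal_im, cay_im, zero_add]

theorem sm_gt {σ : ℝ} {z : ℂ} (hz : ‖z‖ < 1) : σ < (sm σ z).re := by
  rw [sm_re]
  have h1 : 0 < ‖1 - z‖ := norm_pos_iff.2 (one_sub_ne hz)
  have h2 : 0 < 1 - ‖z‖ ^ 2 := by nlinarith [norm_nonneg z]
  have : 0 < (1 - ‖z‖ ^ 2) / ‖1 - z‖ ^ 2 := by positivity
  linarith

theorem sm_analyticAt {σ : ℝ} {z : ℂ} (hz : ‖z‖ < 1) : AnalyticAt ℂ (sm σ) z := by
  unfold sm
  have := one_sub_ne hz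
  fun_prop (disch := assumption)

theorem sm_deriv {σ : ℝ} {z : ℂ} (hz : ‖z‖ < 1) : deriv (sm σ) z ≠ 0 := by
  have h1 := one_sub_ne hz
  have h : HasDerivAt (sm σ) (((1 : ℂ) * (1 - z) - (1 + z) * (-1)) / (1 - z) ^ 2) z := by
    have h2 : HasDerivAt (fun z : ℂ => 1 + z) 1 z := (hasDerivAt_id z).const_add 1
    have h3 : HasDerivAt (fun z : ℂ => 1 - z) (-1) z := (hasDerivAt_id z).const_sub 1
    exact (h2.div h3 h1).const_add _
  rw [h.deriv]
  have : ((1 : ℂ) * (1 - z) - (1 + z) * (-1)) = 2 := by ring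
  rw [this]
  exact div_ne_zero two_ne_zero (pow_ne_zero 2 h1)

theorem sm_inj {σ : ℝ} {u v : ℂ} (hu : ‖u‖ < 1) (hv : ‖v‖ < 1) (h : sm σ u = sm σ v) : u = v := by
  have h1 := one_sub_ne hu
  have h2 := one_sub_ne hv
  unfold sm at h
  have h3 : (1 + u) / (1 - u) = (1 + v) / (1 - v) := by linear_combination h
  rw [div_eq_div_iff h1 h2] at h3
  linear_combination h3 / 2

/-- on an arc of the circle the image is close to the boundary -/
theorem sm_arc {σ r θ α : ℝ} (hr : 0 < r) (hr1 : r < 1) (hα1 : α ≤ 1)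
    (hθ : |θ - Real.pi| ≤ α) :
    σ ≤ (sm σ (circleMap 0 r θ)).re ∧ (sm σ (circleMap 0 r θ)).re ≤ σ + (1 - r ^ 2) ∧
      |(sm σ (circleMap 0 r θ)).im| ≤ 2 * α := by
  set z : ℂ := circleMap 0 r θ with hz
  have hzre : z.re = r * Real.cos θ := by
    rw [hz]; simp [circleMap, Complex.exp_ofReal_mul_I_re]
  have hzim : z.im = r * Real.sin θ := by
    rw [hz]; simp [circleMap, Complex.exp_ofReal_mul_I_im]
  have hzn : ‖z‖ = r := by rw [hz, norm_circleMap_zero, abs_of_pos hr]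
  have hcos : Real.cos θ ≤ 0 := by
    have h1 : Real.cos θ = -Real.cos (θ - Real.pi) := by rw [Real.cos_sub_pi]; ring
    have h2 : 0 ≤ Real.cos (θ - Real.pi) := by
      apply Real.cos_nonneg_of_mem_Icc
      have := Real.pi_gt_three
      rw [abs_le] at hθ
      rw [mem_Icc]
      constructor <;> linarith
    linarith
  have hsin : |Real.sin θ| ≤ α := by
    have h1 : Real.sin θ = -Real.sin (θ - Real.pi) := by rw [Real.sin_sub_pi]; ring
    rw [h1, abs_neg]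
    exact Real.abs_sin_le_abs.trans hθ
  have hden : 1 ≤ ‖1 - z‖ ^ 2 := by
    rw [← Complex.normSq_eq_norm_sq, Complex.normSq_apply]
    simp only [Complex.sub_re, Complex.one_re, Complex.sub_im, Complex.one_im]
    rw [hzre]
    have : r * Real.cos θ ≤ 0 := mul_nonpos_of_nonneg_of_nonpos hr.le hcos
    nlinarith [sq_nonneg (0 - z.im)]
  have hden0 : 0 < ‖1 - z‖ ^ 2 := by linarith
  have h1r : 0 ≤ 1 - r ^ 2 := by nlinarith
  rw [sm_re, sm_im, hzn]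
  refine ⟨?_, ?_, ?_⟩
  · have : 0 ≤ (1 - r ^ 2) / ‖1 - z‖ ^ 2 := div_nonneg h1r hden0.le
    linarith
  · have : (1 - r ^ 2) / ‖1 - z‖ ^ 2 ≤ 1 - r ^ 2 := div_le_self h1r hden
    linarith
  · rw [abs_div, abs_of_pos hden0]
    refine (div_le_self (abs_nonneg _) hden).trans ?_
    rw [abs_mul, abs_two, hzim, abs_mul, abs_of_pos hr]
    have : r * |Real.sin θ| ≤ 1 * α := mul_le_mul hr1.le hsin (abs_nonneg _) zero_le_one
    linarith

/-- comparison of the weights -/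
theorem weight {σ r r0 : ℝ} {u : ℂ} (hσ : 1 / 2 < σ) (hσ1 : σ ≤ 1) (hr : 0 < r) (hr1 : r < 1)
    (hr0 : 0 < r0) (hu : ‖u‖ < 1) (hu0 : r0 ≤ ‖u‖) :
    Real.log (r * ‖0 - u‖⁻¹) ≤
      4 / r0 ^ 2 * (((sm σ u).re - 1 / 2) / (1 + ‖sm σ u‖ ^ 2)) := by
  have hupos : 0 < ‖u‖ := hr0.trans_le hu0
  rw [zero_sub, norm_neg]
  have h1 : Real.log (r * ‖u‖⁻¹) ≤ (1 - ‖u‖ ^ 2) / (2 * r0 ^ 2) := by
    have h2 : Real.log (r * ‖u‖⁻¹) ≤ Real.log (‖u‖⁻¹) := by
      apply Real.log_le_log (by positivity)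
      have : 0 < ‖u‖⁻¹ := by positivity
      nlinarith
    have h3 : Real.log (‖u‖⁻¹) = Real.log ((‖u‖ ^ 2)⁻¹) / 2 := by
      rw [Real.log_inv, Real.log_inv, Real.log_pow]; push_cast; ring
    have h4 : Real.log ((‖u‖ ^ 2)⁻¹) ≤ (‖u‖ ^ 2)⁻¹ - 1 :=
      Real.log_le_sub_one_of_pos (by positivity)
    have h5 : (‖u‖ ^ 2)⁻¹ - 1 = (1 - ‖u‖ ^ 2) / ‖u‖ ^ 2 := by field_simp
    have h6 : (1 - ‖u‖ ^ 2) / ‖u‖ ^ 2 ≤ (1 - ‖u‖ ^ 2) / r0 ^ 2 := by
      apply div_le_div_of_nonneg_left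
      · nlinarith
      · positivity
      · exact pow_le_pow_left₀ hr0.le hu0 2
    have h7 : (1 - ‖u‖ ^ 2) / (2 * r0 ^ 2) = (1 - ‖u‖ ^ 2) / r0 ^ 2 / 2 := by
      field_simp
    rw [h7]
    linarith
  refine h1.trans ?_
  have hne := one_sub_ne hu
  have hd : 0 < ‖1 - u‖ ^ 2 := by
    have := norm_pos_iff.2 hne
    positivity
  set x : ℝ := (1 - ‖u‖ ^ 2) / ‖1 - u‖ ^ 2 with hx
  have hu2 : 0 < 1 - ‖u‖ ^ 2 := by nlinarith
  have hxpos : 0 < x := div_pos hu2 hd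
  have e1 : 1 - ‖u‖ ^ 2 = x * ‖1 - u‖ ^ 2 := by rw [hx]; field_simp
  have e2 : (sm σ u).re = σ + x := sm_re
  have e3 : (sm σ u).im = 2 * u.im / ‖1 - u‖ ^ 2 := sm_im
  have e4 : (x + 1) ^ 2 + (sm σ u).im ^ 2 = 4 / ‖1 - u‖ ^ 2 := by
    have h2 : ‖(1 + u) / (1 - u) + 1‖ ^ 2 = 4 / ‖1 - u‖ ^ 2 := by
      have : (1 + u) / (1 - u) + 1 = 2 / (1 - u) := by field_simp; ring
      rw [this, norm_div, div_pow]
      norm_num
    rw [← h2, ← Complex.normSq_eq_norm_sq, Complex.normSq_apply]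
    rw [Complex.add_re, Complex.add_im, cay_re, cay_im, e3, hx]
    simp only [Complex.one_re, Complex.one_im]
    ring
  have e5 : ‖sm σ u‖ ^ 2 = (σ + x) ^ 2 + (sm σ u).im ^ 2 := by
    rw [← Complex.normSq_eq_norm_sq, Complex.normSq_apply, e2]
    ring
  have e6 : 1 + ‖sm σ u‖ ^ 2 ≤ 8 / ‖1 - u‖ ^ 2 := by
    have h8 : 8 / ‖1 - u‖ ^ 2 = 2 * (4 / ‖1 - u‖ ^ 2) := by ring
    rw [h8, ← e4, e5]
    nlinarith [sq_nonneg (sm σ u).im]
  have e7 : (1 + ‖sm σ u‖ ^ 2) * ‖1 - u‖ ^ 2 ≤ 8 := by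
    rwa [le_div_iff₀ hd] at e6
  have hpos : 0 < 1 + ‖sm σ u‖ ^ 2 := by positivity
  rw [e1, e2]
  have h9 : x * ‖1 - u‖ ^ 2 / (2 * r0 ^ 2) = (x * ‖1 - u‖ ^ 2) * (1 / (2 * r0 ^ 2)) := by ring
  have h10 : 4 / r0 ^ 2 * ((σ + x - 1 / 2) / (1 + ‖sm σ u‖ ^ 2)) =
      (8 * (σ + x - 1 / 2) / (1 + ‖sm σ u‖ ^ 2)) * (1 / (2 * r0 ^ 2)) := by
    field_simp
    ring
  rw [h9, h10]
  apply mul_le_mul_of_nonneg_right _ (by positivity)
  rw [le_div_iff₀ hpos]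
  have h11 : x * ‖1 - u‖ ^ 2 * (1 + ‖sm σ u‖ ^ 2) = x * ((1 + ‖sm σ u‖ ^ 2) * ‖1 - u‖ ^ 2) := by
    ring
  rw [h11]
  have h12 : x * ((1 + ‖sm σ u‖ ^ 2) * ‖1 - u‖ ^ 2) ≤ x * 8 :=
    mul_le_mul_of_nonneg_left e7 hxpos.le
  linarith

/-- zeros stay away from the centre -/
theorem zero_away {σ ρ0 : ℝ} {u : ℂ} (hσ : 1 / 2 < σ) (hσ2 : σ - 1 / 2 ≤ ρ0 / 2) (hρ0 : 0 < ρ0)
    (hu : ρ0 ≤ ‖sm σ u - 3 / 2‖) : min (ρ0 / 8) (1 / 2) ≤ ‖u‖ := by
  by_contra hcon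
  rw [not_le, lt_min_iff] at hcon
  obtain ⟨h1, h2⟩ := hcon
  have hne : 1 - u ≠ 0 := one_sub_ne (by linarith)
  have e : sm σ u - 3 / 2 = ((σ - 1 / 2 : ℝ) : ℂ) + 2 * u / (1 - u) := by
    unfold sm
    push_cast
    field_simp
    ring
  have h3 : ‖sm σ u - 3 / 2‖ ≤ (σ - 1 / 2) + 2 * ‖u‖ / ‖1 - u‖ := by
    rw [e]
    refine (norm_add_le _ _).trans ?_
    rw [Complex.norm_real, Real.norm_of_nonneg (by linarith), norm_div, norm_mul]
    norm_num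
  have h4 : 1 / 2 ≤ ‖1 - u‖ := by
    have : ‖(1 : ℂ)‖ - ‖u‖ ≤ ‖1 - u‖ := norm_sub_norm_le _ _
    rw [norm_one] at this
    linarith
  have h5 : 2 * ‖u‖ / ‖1 - u‖ ≤ 4 * ‖u‖ := by
    rw [div_le_iff₀ (by linarith)]
    nlinarith [norm_nonneg u]
  linarith

end Pool.Agent.W397.NV
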