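import Pool.Agent.W184.NV.Defs
import Pool.Agent.W397.NV.Jen2

/-!
# Zeros of `F - c`
-/

set_option autoImplicit false

open MeasureTheory Filter Topology Set Metric

namespace Pool.Agent.W397.NV

theorem order_facts {h : ℂ → ℂ} {U : Set ℂ} (hh : AnalyticOnNhd ℂ h U) {u : ℂ}
    (hu : MeromorphicOn.divisor h U u ≠ 0) :
    u ∈ U ∧ h u = 0 ∧ (MeromorphicOn.divisor h U u : ℝ) = (analyticOrderNatAt h u : ℝ) := by
  have huU : u ∈ U := by
    by_contra hcon
    exact hu (Function.locallyFinsuppWithin.apply_eq_zero_of_notMem _ hcon)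
  have h1 := MeromorphicOn.AnalyticOnNhd.divisor_apply hh huU
  rw [h1] at hu
  refine ⟨huU, ?_, ?_⟩
  · rw [← (hh u huU).analyticOrderAt_ne_zero]
    intro h0
    rw [h0] at hu
    simp at hu
  · rw [h1]
    unfold analyticOrderNatAt
    cases hcase : analyticOrderAt h u with
    | top => simp
    | coe m => simp

theorem jen : Pool.Agent.W184.NV.S_Jen := by
  classical
  intro t₀ F σ δ ht₀ hF hσδ hσ hbig
  have hopen : IsOpen {s : ℂ | 1 / 2 < s.re} := isOpen_lt continuous_const Complex.continuous_re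
  set α : ℝ := min (t₀ / 2) 1 with hαd
  have hα : 0 < α := lt_min (by linarith) one_pos
  have hα1 : α ≤ 1 := min_le_right _ _
  have hα2 : 2 * α ≤ t₀ := by
    have := min_le_left (t₀ / 2) 1
    linarith
  set r : ℕ → ℝ := fun k => 1 - min (δ k) 1 / 2 with hrd
  have hm : ∀ k, 0 < min (δ k) 1 ∧ min (δ k) 1 ≤ 1 ∧ min (δ k) 1 ≤ δ k := fun k =>
    ⟨lt_min (hσδ k).2 one_pos, min_le_right _ _, min_le_left _ _⟩
  have hr0 : ∀ k, 0 < r k := fun k => by
    have := hm k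
    simp only [hrd]; linarith
  have hr1 : ∀ k, r k < 1 := fun k => by
    have := hm k
    simp only [hrd]; linarith
  have hr2 : ∀ k, 1 - r k ^ 2 ≤ δ k := fun k => by
    have := hm k
    simp only [hrd]; nlinarith
  have hcirc : ∀ k θ, ‖circleMap 0 (r k) θ‖ < 1 := fun k θ => by
    rw [norm_circleMap_zero, abs_of_pos (hr0 k)]; exact hr1 k
  have hFan : ∀ s : ℂ, 1 / 2 < s.re → AnalyticAt ℂ F s := fun s hs =>
    hF.analyticAt (hopen.mem_nhds hs)
  have hsmre : ∀ k (z : ℂ), ‖z‖ < 1 → 1 / 2 < (sm (σ k) z).re := fun k z hz =>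
    (hσδ k).1.trans (sm_gt hz)
  set H : ℕ → ℝ → ℂ := fun k θ => F (sm (σ k) (circleMap 0 (r k) θ)) with hH
  have hHc : ∀ k, Continuous (H k) := by
    intro k
    rw [continuous_iff_continuousAt]
    intro θ
    have h1 : ContinuousAt F (sm (σ k) (circleMap 0 (r k) θ)) :=
      (hFan _ (hsmre k _ (hcirc k θ))).continuousAt
    have h2 : ContinuousAt (sm (σ k)) (circleMap 0 (r k) θ) :=
      (sm_analyticAt (hcirc k θ)).continuousAt
    have h3 : ContinuousAt (circleMap 0 (r k)) θ := (continuous_circleMap 0 (r k)).continuousAt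
    have h4 : ContinuousAt (fun θ => sm (σ k) (circleMap 0 (r k) θ)) θ :=
      ContinuousAt.comp (f := circleMap 0 (r k)) h2 h3
    exact ContinuousAt.comp (f := fun θ => sm (σ k) (circleMap 0 (r k) θ)) h1 h4
  obtain ⟨c, hc0, hc01, C0, hC0, hfreq⟩ := exists_value H hHc (F (3 / 2))
  have hF32 : AnalyticAt ℂ F (3 / 2) := hFan _ (by norm_num)
  refine ⟨c, ⟨3 / 2, by norm_num, fun h => hc0 h.symm⟩, ?_⟩
  intro C
  -- a neighbourhood of 3/2
  set M : ℝ := ‖F (3 / 2) - c‖ + 1 with hM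
  have hM1 : 1 ≤ M := by
    have := norm_nonneg (F (3 / 2) - c)
    linarith
  obtain ⟨ρ0, hρ0, hnear⟩ : ∃ ρ0 > 0, ∀ s : ℂ, ‖s - 3 / 2‖ < ρ0 → F s ≠ c ∧ ‖F s - c‖ ≤ M := by
    have h1 : ∀ᶠ s in 𝓝 (3 / 2 : ℂ), F s ≠ c := hF32.continuousAt.eventually_ne (fun h => hc0 h.symm)
    have h2 : ∀ᶠ s in 𝓝 (3 / 2 : ℂ), ‖F s - c‖ < M := by
      have h3 : ContinuousAt (fun s => ‖F s - c‖) (3 / 2) :=
        (hF32.continuousAt.sub continuousAt_const).norm
      exact h3.eventually_lt continuousAt_const (by simp [hM])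
    obtain ⟨ε, hε, h3⟩ := Metric.eventually_nhds_iff.1 (h1.and h2)
    refine ⟨ε, hε, fun s hs => ?_⟩
    have h4 := h3 (y := s) (by rwa [dist_eq_norm])
    exact ⟨h4.1, h4.2.le⟩
  set r0 : ℝ := min (ρ0 / 8) (1 / 2) with hr0d
  have hr0pos : 0 < r0 := lt_min (by linarith) (by norm_num)
  -- choice of the index
  have hpi := Real.pi_pos
  obtain ⟨N, hN⟩ := exists_nat_gt ((Real.pi / α) * (4 / r0 ^ 2 * |C| + Real.log M +
    (2 * Real.pi)⁻¹ * C0) + 1)
  have hev : ∀ᶠ k in atTop, σ k - 1 / 2 < min (ρ0 / 2) (1 / 2) ∧ max N 1 ≤ k := by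
    refine Eventually.and ?_ (eventually_ge_atTop _)
    have h1 : Tendsto (fun k => σ k - 1 / 2) atTop (𝓝 0) := by
      have := hσ.sub_const (1 / 2 : ℝ)
      simpa using this
    exact h1.eventually_lt_const (lt_min (by linarith) (by norm_num))
  obtain ⟨k, hk, hk1, hk2⟩ := (hfreq.and_eventually hev).exists
  have hkN : N ≤ k := (le_max_left _ _).trans hk2
  have hk1' : 1 ≤ k := (le_max_right _ _).trans hk2
  rw [lt_min_iff] at hk1
  obtain ⟨hkρ, hkhalf⟩ := hk1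
  have hσk := (hσδ k).1
  set h : ℂ → ℂ := fun z => F (sm (σ k) z) - c with hh
  have habs : |r k| = r k := abs_of_pos (hr0 k)
  have hball : ∀ z ∈ closedBall (0 : ℂ) |r k|, ‖z‖ < 1 := by
    intro z hz
    rw [mem_closedBall_zero_iff, habs] at hz
    linarith [hr1 k]
  have hcomp : ∀ z : ℂ, ‖z‖ < 1 → AnalyticAt ℂ h z := by
    intro z hz
    have h1 : AnalyticAt ℂ (fun z => F (sm (σ k) z)) z :=
      AnalyticAt.comp (g := F) (f := sm (σ k)) (hFan _ (hsmre k z hz)) (sm_analyticAt hz)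
    exact h1.sub analyticAt_const
  have hhan : AnalyticOnNhd ℂ h (closedBall 0 |r k|) := fun z hz => hcomp z (hball z hz)
  have hcen : sm (σ k) 0 - 3 / 2 = ((σ k - 1 / 2 : ℝ) : ℂ) := by
    unfold sm; push_cast; ring
  have hcenn : ‖sm (σ k) 0 - 3 / 2‖ < ρ0 := by
    rw [hcen, Complex.norm_real, Real.norm_of_nonneg (by linarith)]
    linarith
  have h00 : h 0 ≠ 0 := sub_ne_zero.2 (hnear _ hcenn).1
  have h0M : ‖h 0‖ ≤ M := (hnear _ hcenn).2
  have hlog0 : Real.log ‖h 0‖ ≤ Real.log M := Real.log_le_log (norm_pos_iff.2 h00) h0M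
  have hkr : (1 : ℝ) ≤ k := by exact_mod_cast hk1'
  have harc : ∀ θ : ℝ, |θ - Real.pi| ≤ α → Real.exp ((k : ℝ) - 1) ≤ ‖h (circleMap 0 (r k) θ)‖ := by
    intro θ hθ
    obtain ⟨g1, g2, g3⟩ := sm_arc (σ := σ k) (hr0 k) (hr1 k) hα1 hθ
    have h1 := hbig k _ g1 (g2.trans (by linarith [hr2 k])) (g3.trans hα2)
    have h2 : ‖F (sm (σ k) (circleMap 0 (r k) θ))‖ - ‖(c : ℂ)‖ ≤
        ‖F (sm (σ k) (circleMap 0 (r k) θ)) - c‖ := norm_sub_norm_le _ _
    have h3 : ‖(c : ℂ)‖ ≤ 1 := by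
      rw [Complex.norm_real, Real.norm_of_nonneg hc01.1]
      exact hc01.2
    have h4 : Real.exp k = Real.exp ((k : ℝ) - 1) * Real.exp 1 := by
      rw [← Real.exp_add]; congr 1; ring
    have h5 : 2 ≤ Real.exp 1 := by linarith [Real.exp_one_gt_d9]
    have h6 : 1 ≤ Real.exp ((k : ℝ) - 1) := Real.one_le_exp (by linarith)
    have h7 : Real.exp ((k : ℝ) - 1) * 2 ≤ Real.exp ((k : ℝ) - 1) * Real.exp 1 :=
      mul_le_mul_of_nonneg_left h5 (Real.exp_pos _).le
    change _ ≤ ‖F (sm (σ k) (circleMap 0 (r k) θ)) - c‖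
    linarith
  have hJ := jens_lower (hr0 k) hhan h00 hα hα1 (by linarith : (0 : ℝ) ≤ (k : ℝ) - 1) harc hC0 hk
  -- the zeros
  set D := MeromorphicOn.divisor h (closedBall 0 |r k|) with hD
  have hDfin : (Function.support D).Finite := D.finiteSupport (isCompact_closedBall 0 |r k|)
  have hfacts : ∀ u ∈ hDfin.toFinset, u ∈ closedBall (0 : ℂ) |r k| ∧ h u = 0 ∧
      (D u : ℝ) = (analyticOrderNatAt h u : ℝ) := fun u hu =>
    order_facts hhan (by simpa using hu)
  have hsum1 : ∑ᶠ u, (D u : ℝ) * Real.log (r k * ‖0 - u‖⁻¹) =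
      ∑ u ∈ hDfin.toFinset, (D u : ℝ) * Real.log (r k * ‖0 - u‖⁻¹) := by
    apply finsum_eq_sum_of_support_subset
    intro u hu
    rw [Finite.coe_toFinset]
    intro h0
    apply hu
    simp only
    rw [h0]
    simp
  have horder : ∀ u ∈ hDfin.toFinset, analyticOrderNatAt (fun s => F s - c) (sm (σ k) u) =
      analyticOrderNatAt h u := by
    intro u hu
    have hu1 := hball u (hfacts u hu).1
    unfold analyticOrderNatAt
    have := analyticOrderAt_comp_of_deriv_ne_zero (f := fun s => F s - (c : ℂ))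
      (sm_analyticAt (σ := σ k) hu1) (sm_deriv hu1)
    rw [← this]
    rfl
  refine ⟨hDfin.toFinset.image (sm (σ k)), ?_, ?_⟩
  · intro ρ hρ
    obtain ⟨u, hu, rfl⟩ := Finset.mem_image.1 hρ
    obtain ⟨hu1, hu2, -⟩ := hfacts u hu
    exact ⟨hsmre k u (hball u hu1), sub_eq_zero.1 hu2⟩
  · rw [Finset.sum_image (fun u hu v hv huv =>
      sm_inj (hball u (hfacts u hu).1) (hball v (hfacts v hv).1) huv)]
    set g : ℂ → ℝ := fun u => (analyticOrderNatAt (fun s => F s - c) (sm (σ k) u) : ℝ) *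
      ((sm (σ k) u).re - 1 / 2) / (1 + ‖sm (σ k) u‖ ^ 2) with hg
    have hle : ∀ u ∈ hDfin.toFinset, (D u : ℝ) * Real.log (r k * ‖0 - u‖⁻¹) ≤
        4 / r0 ^ 2 * g u := by
      intro u hu
      obtain ⟨hu1, hu2, hu3⟩ := hfacts u hu
      have hun := hball u hu1
      have haway : r0 ≤ ‖u‖ := by
        refine zero_away hσk (by linarith) hρ0 ?_
        by_contra hcon
        exact (hnear _ (not_le.1 hcon)).1 (sub_eq_zero.1 hu2)
      have hw := weight hσk (by linarith) (hr0 k) (hr1 k) hr0pos hun haway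
      rw [hu3, hg]
      simp only
      rw [horder u hu]
      have := mul_le_mul_of_nonneg_left hw (Nat.cast_nonneg (α := ℝ) (analyticOrderNatAt h u))
      refine this.trans (le_of_eq ?_)
      ring
    have hsum2 : ∑ᶠ u, (D u : ℝ) * Real.log (r k * ‖0 - u‖⁻¹) ≤
        4 / r0 ^ 2 * ∑ u ∈ hDfin.toFinset, g u := by
      rw [hsum1, Finset.mul_sum]
      exact Finset.sum_le_sum hle
    have hkN' : (N : ℝ) ≤ k := by exact_mod_cast hkN
    set B : ℝ := 4 / r0 ^ 2 * |C| + Real.log M + (2 * Real.pi)⁻¹ * C0 with hB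
    have h1 : Real.pi / α * B < (k : ℝ) - 1 := by linarith
    have h2 : B < α / Real.pi * ((k : ℝ) - 1) := by
      have h3 : B = α / Real.pi * (Real.pi / α * B) := by field_simp
      rw [h3]
      exact mul_lt_mul_of_pos_left h1 (by positivity)
    have h3 : (2 * Real.pi)⁻¹ * (2 * α * ((k : ℝ) - 1) - C0) =
        α / Real.pi * ((k : ℝ) - 1) - (2 * Real.pi)⁻¹ * C0 := by
      field_simp
    have h4 : 4 / r0 ^ 2 * |C| < 4 / r0 ^ 2 * ∑ u ∈ hDfin.toFinset, g u := by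
      rw [h3] at hJ
      linarith
    have h5 : |C| < ∑ u ∈ hDfin.toFinset, g u := lt_of_mul_lt_mul_left h4 (by positivity)
    exact (le_abs_self C).trans_lt h5

end Pool.Agent.W397.NV
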