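import Mathlib

/-!
# Choice of the value: Fatou's lemma for the negative part of the logarithm
-/

set_option autoImplicit false

open MeasureTheory Filter Topology Set

namespace Pool.Agent.W397.NV

/-- negative part of the logarithm -/
noncomputable def lm (x : ℝ) : ENNReal := ENNReal.ofReal (-Real.log x)

theorem lm_meas : Measurable lm := by
  unfold lm
  exact (Real.measurable_log.neg).ennreal_ofReal

theorem lm_anti {x y : ℝ} (hx : 0 < x) (hxy : x ≤ y) : lm y ≤ lm x := by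
  unfold lm
  apply ENNReal.ofReal_le_ofReal
  have := Real.log_le_log hx hxy
  linarith

theorem lm_eq_zero {x : ℝ} (hx : 1 ≤ x) : lm x = 0 := by
  unfold lm
  rw [ENNReal.ofReal_eq_zero]
  have := Real.log_nonneg hx
  linarith

theorem lintegral_lm : ∫⁻ x in Icc (-1 : ℝ) 1, lm x = 2 := by
  have hint : IntegrableOn (fun x : ℝ => -Real.log x) (Icc (-1 : ℝ) 1) := by
    have h : IntervalIntegrable (fun x : ℝ => -Real.log x) volume (-1) 1 :=
      intervalIntegral.intervalIntegrable_log'.neg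
    rw [intervalIntegrable_iff_integrableOn_Icc_of_le (by norm_num)] at h
    exact h
  have hnn : 0 ≤ᵐ[volume.restrict (Icc (-1 : ℝ) 1)] fun x : ℝ => -Real.log x := by
    refine (ae_restrict_iff' measurableSet_Icc).2 (Eventually.of_forall fun x hx => ?_)
    have h1 : |x| ≤ 1 := abs_le.2 hx
    have h2 : Real.log x ≤ 0 := by
      rw [← Real.log_abs]
      exact Real.log_nonpos (abs_nonneg _) h1
    simpa using h2
  unfold lm
  rw [← ofReal_integral_eq_lintegral_ofReal hint hnn, integral_Icc_eq_integral_Ioc,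
    ← intervalIntegral.integral_of_le (by norm_num), intervalIntegral.integral_neg, integral_log]
  norm_num

/-- the average over the value -/
theorem lintegral_value (w : ℂ) : ∫⁻ c in Icc (0 : ℝ) 1, lm ‖w - (c : ℂ)‖ ≤ 2 := by
  have h1 : ∫⁻ c in Icc (0 : ℝ) 1, lm ‖w - (c : ℂ)‖ ≤
      ∫⁻ c : ℝ, (Icc (-1 : ℝ) 1).indicator lm (w.re - c) := by
    refine (setLIntegral_le_lintegral _ _).trans (lintegral_mono_ae ?_)
    have hne : ∀ᵐ c : ℝ, c ≠ w.re := by
      rw [ae_iff]
      simp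
    filter_upwards [hne] with c hc
    have hre : |w.re - c| ≤ ‖w - (c : ℂ)‖ := by
      have := Complex.abs_re_le_norm (w - (c : ℂ))
      simpa using this
    have hpos : 0 < |w.re - c| := abs_pos.2 (sub_ne_zero.2 hc.symm)
    by_cases h : w.re - c ∈ Icc (-1 : ℝ) 1
    · rw [indicator_of_mem h]
      have : lm (w.re - c) = lm |w.re - c| := by unfold lm; rw [Real.log_abs]
      rw [this]
      exact lm_anti hpos hre
    · rw [indicator_of_notMem h]
      have h2 : 1 < |w.re - c| := by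
        by_contra hcon
        exact h (abs_le.1 (not_lt.1 hcon))
      rw [lm_eq_zero (h2.le.trans hre)]
  refine h1.trans (le_of_eq ?_)
  rw [lintegral_sub_left_eq_self (fun x => (Icc (-1 : ℝ) 1).indicator lm x) w.re,
    lintegral_indicator measurableSet_Icc, lintegral_lm]

/-- choice of the value -/
theorem exists_value (H : ℕ → ℝ → ℂ) (hH : ∀ k, Continuous (H k)) (w₀ : ℂ) :
    ∃ c : ℝ, (c : ℂ) ≠ w₀ ∧ c ∈ Icc (0 : ℝ) 1 ∧ ∃ C₀ : ℝ, 0 ≤ C₀ ∧
      ∃ᶠ k in atTop, ∫⁻ θ in Ioc 0 (2 * Real.pi), lm ‖H k θ - (c : ℂ)‖ ≤ ENNReal.ofReal C₀ := by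
  set f : ℕ → ℝ → ENNReal := fun k c => ∫⁻ θ in Ioc 0 (2 * Real.pi), lm ‖H k θ - (c : ℂ)‖ with hf
  have hm2 : ∀ k, Measurable (Function.uncurry fun (c θ : ℝ) => lm ‖H k θ - (c : ℂ)‖) := by
    intro k
    refine lm_meas.comp ?_
    have : Continuous fun p : ℝ × ℝ => ‖H k p.2 - (p.1 : ℂ)‖ := by
      have := hH k
      fun_prop
    exact this.measurable
  have hmeas : ∀ k, Measurable (f k) := fun k => (hm2 k).lintegral_prod_right
  have hint : ∀ k, ∫⁻ c in Icc (0 : ℝ) 1, f k c ≤ 2 * ENNReal.ofReal (2 * Real.pi) := by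
    intro k
    simp only [hf]
    rw [lintegral_lintegral_swap (hm2 k).aemeasurable]
    calc ∫⁻ θ in Ioc 0 (2 * Real.pi), ∫⁻ c in Icc (0 : ℝ) 1, lm ‖H k θ - (c : ℂ)‖
        ≤ ∫⁻ θ in Ioc 0 (2 * Real.pi), 2 := lintegral_mono fun θ => lintegral_value _
      _ = 2 * ENNReal.ofReal (2 * Real.pi) := by
          rw [setLIntegral_const, Real.volume_Ioc, sub_zero]
  have hfatou : ∫⁻ c in Icc (0 : ℝ) 1, liminf (fun k => f k c) atTop ≤
      2 * ENNReal.ofReal (2 * Real.pi) := by
    refine (lintegral_liminf_le hmeas).trans ?_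
    refine liminf_le_of_frequently_le' (Eventually.frequently (Eventually.of_forall hint))
  have hfin : ∀ᵐ c ∂(volume.restrict (Icc (0 : ℝ) 1)), liminf (fun k => f k c) atTop < ⊤ := by
    refine ae_lt_top (Measurable.liminf hmeas) ?_
    refine ne_top_of_le_ne_top ?_ hfatou
    exact ENNReal.mul_ne_top (by norm_num) ENNReal.ofReal_ne_top
  have hne : ∀ᵐ c : ℝ ∂(volume.restrict (Icc (0 : ℝ) 1)), (c : ℂ) ≠ w₀ := by
    have h1 : ∀ᵐ c : ℝ, c ≠ w₀.re := by
      rw [ae_iff]
      simp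
    refine ae_restrict_of_ae ?_
    filter_upwards [h1] with c hc h
    apply hc
    rw [← h, Complex.ofReal_re]
  have hmem : ∀ᵐ c ∂(volume.restrict (Icc (0 : ℝ) 1)), c ∈ Icc (0 : ℝ) 1 :=
    ae_restrict_mem measurableSet_Icc
  have : (ae (volume.restrict (Icc (0 : ℝ) 1))).NeBot := by
    rw [ae_neBot]
    intro h
    have h2 := congrArg (fun μ : Measure ℝ => μ univ) h
    simp at h2
  obtain ⟨c, hc1, hc2, hc3⟩ := (hfin.and (hne.and hmem)).exists
  obtain ⟨b, hb1, hb2⟩ := exists_between hc1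
  refine ⟨c, hc2, hc3, b.toReal, ENNReal.toReal_nonneg, ?_⟩
  rw [ENNReal.ofReal_toReal hb2.ne]
  exact (frequently_lt_of_liminf_lt (by isBoundedDefault) hb1).mono fun k hk => hk.le

end Pool.Agent.W397.NV
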